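import Mathlib
import Pool.Agent.H22.KF.Targets

/-!
# MP_3fd637_nt, module CL: integer points of a plane
-/

open MeasureTheory Filter Topology
open scoped ENNReal

namespace KF65

open KF

/-- integers in one residue class modulo `m` in an interval -/
theorem card_class (F : Finset ℤ) (L : ℝ) (m : ℤ) (hm : 0 < m) (hL : 0 ≤ L)
    (hF : ∀ y ∈ F, |(y : ℝ)| ≤ L) (hd : ∀ y ∈ F, ∀ y' ∈ F, m ∣ y' - y) :
    (F.card : ℝ) ≤ 2 * L / m + 1 := by
  have hm' : (0 : ℝ) < m := by exact_mod_cast hm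
  rcases F.eq_empty_or_nonempty with h | h
  · subst h
    simp only [Finset.card_empty, Nat.cast_zero]
    positivity
  · set y0 := F.min' h with hy0
    have hy0F : y0 ∈ F := F.min'_mem h
    have hinj : Set.InjOn (fun y : ℤ => ((y - y0) / m).toNat) (F : Set ℤ) := by
      intro y hy y' hy' heq
      simp only at heq
      obtain ⟨k, hk⟩ := hd y0 hy0F y hy
      obtain ⟨k', hk'⟩ := hd y0 hy0F y' hy'
      have h1 : 0 ≤ y - y0 := sub_nonneg.2 (F.min'_le y hy)
      have h2 : 0 ≤ y' - y0 := sub_nonneg.2 (F.min'_le y' hy')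
      rw [hk] at h1
      rw [hk'] at h2
      have hk0 : 0 ≤ k := nonneg_of_mul_nonneg_right h1 hm
      have hk0' : 0 ≤ k' := nonneg_of_mul_nonneg_right h2 hm
      rw [hk, hk', Int.mul_ediv_cancel_left _ hm.ne', Int.mul_ediv_cancel_left _ hm.ne'] at heq
      have : k = k' := by
        have := congrArg (fun n : ℕ => (n : ℤ)) heq
        simp only [Int.toNat_of_nonneg hk0, Int.toNat_of_nonneg hk0'] at this
        exact this
      have e : y - y0 = y' - y0 := by rw [hk, hk', this]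
      linarith
    have hmap : ∀ y ∈ F, ((y - y0) / m).toNat ∈ Finset.range (⌊2 * L / m⌋₊ + 1) := by
      intro y hy
      rw [Finset.mem_range, Nat.lt_succ_iff]
      obtain ⟨k, hk⟩ := hd y0 hy0F y hy
      have h1 : 0 ≤ y - y0 := sub_nonneg.2 (F.min'_le y hy)
      have h1' := h1
      rw [hk] at h1
      have hk0 : 0 ≤ k := nonneg_of_mul_nonneg_right h1 hm
      rw [hk, Int.mul_ediv_cancel_left _ hm.ne']
      apply Nat.le_floor
      rw [le_div_iff₀ hm']
      have h3 : ((k.toNat : ℕ) : ℝ) = (k : ℝ) := by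
        have : ((k.toNat : ℕ) : ℤ) = k := Int.toNat_of_nonneg hk0
        exact_mod_cast this
      rw [h3]
      have h4 : (k : ℝ) * m = (y : ℝ) - y0 := by
        have : (m * k : ℤ) = y - y0 := hk.symm
        have h5 : ((m * k : ℤ) : ℝ) = ((y - y0 : ℤ) : ℝ) := by rw [this]
        push_cast at h5
        linarith
      rw [h4]
      have h6 := abs_le.1 (hF y hy)
      have h7 := abs_le.1 (hF y0 hy0F)
      linarith [h6.2, h7.1]
    have hc := Finset.card_le_card_of_injOn _ hmap hinj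
    rw [Finset.card_range] at hc
    calc (F.card : ℝ) ≤ ((⌊2 * L / m⌋₊ + 1 : ℕ) : ℝ) := by exact_mod_cast hc
      _ = (⌊2 * L / m⌋₊ : ℝ) + 1 := by push_cast; ring
      _ ≤ 2 * L / m + 1 := by
        have := Nat.floor_le (show 0 ≤ 2 * L / m by positivity)
        linarith

theorem core (a b c : ℤ) (hc : c ≠ 0) (hprim : ∀ d : ℤ, d ∣ a → d ∣ b → d ∣ c → IsUnit d)
    (L : ℝ) (hcL : |(c : ℝ)| ≤ L) (S : Finset (ℤ × ℤ × ℤ))
    (hS : ∀ p ∈ S, |(p.1 : ℝ)| ≤ L ∧ |(p.2.1 : ℝ)| ≤ L ∧ a * p.1 + b * p.2.1 + c * p.2.2 = 0) :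
    (S.card : ℝ) ≤ 9 * L ^ 2 / |(c : ℝ)| := by
  have hL0 : 0 ≤ L := le_trans (abs_nonneg _) hcL
  set g : ℤ := ((Int.gcd b c : ℕ) : ℤ) with hg
  have hg0 : 0 < g := by
    rw [hg]
    have : 0 < Int.gcd b c := Int.gcd_pos_of_ne_zero_right b hc
    exact_mod_cast this
  have hgb : g ∣ b := Int.gcd_dvd_left b c
  have hgc : g ∣ c := Int.gcd_dvd_right b c
  obtain ⟨c', hc'⟩ := hgc
  obtain ⟨b', hb'⟩ := hgb
  have hc'0 : c' ≠ 0 := by
    rintro rfl
    apply hc; rw [hc']; ring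
  have hcop : IsCoprime b' c' := by
    rw [Int.isCoprime_iff_gcd_eq_one]
    have h1 : Int.gcd b c = g.natAbs * Int.gcd b' c' := by
      conv_lhs => rw [hb', hc', Int.gcd_mul_left]
    have h2 : g.natAbs = Int.gcd b c := by rw [hg]; simp
    rw [h2] at h1
    have h3 : 0 < Int.gcd b c := Int.gcd_pos_of_ne_zero_right b hc
    exact (Nat.eq_of_mul_eq_mul_left h3 (by linarith)).symm
  have hcopa : IsCoprime a g := by
    rw [Int.isCoprime_iff_gcd_eq_one]
    have h1 : IsUnit ((Int.gcd a g : ℕ) : ℤ) := by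
      apply hprim
      · exact Int.gcd_dvd_left a g
      · exact (Int.gcd_dvd_right a g).trans ⟨b', hb'⟩
      · exact (Int.gcd_dvd_right a g).trans ⟨c', hc'⟩
    have h2 := Int.isUnit_iff.1 h1
    omega
  have hm : 0 < |c'| := abs_pos.2 hc'0
  have hgR : (0 : ℝ) < g := by exact_mod_cast hg0
  have hmR : (0 : ℝ) < |(c' : ℝ)| := by
    have : (0 : ℝ) < ((|c'| : ℤ) : ℝ) := by exact_mod_cast hm
    rwa [Int.cast_abs] at this
  have hcabs : |(c : ℝ)| = g * |(c' : ℝ)| := by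
    rw [hc']; push_cast
    rw [abs_mul, abs_of_pos hgR]
  -- fibres
  have hfib : ∀ x ∈ S.image (fun p => p.1),
      (({p ∈ S | p.1 = x} : Finset (ℤ × ℤ × ℤ)).card : ℝ) ≤ 2 * L / |(c' : ℝ)| + 1 := by
    intro x _
    have hinj : Set.InjOn (fun p : ℤ × ℤ × ℤ => p.2.1)
        (({p ∈ S | p.1 = x} : Finset (ℤ × ℤ × ℤ)) : Set (ℤ × ℤ × ℤ)) := by
      intro p hp q hq hpq
      simp only [Finset.coe_filter, Set.mem_ofPred_eq] at hp hq
      have e1 := (hS p hp.1).2.2
      have e2 := (hS q hq.1).2.2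
      simp only at hpq
      have e3 : p.1 = q.1 := hp.2.trans hq.2.symm
      rw [e3, hpq] at e1
      have e4 : c * p.2.2 = c * q.2.2 := by linarith
      have e5 := mul_left_cancel₀ hc e4
      exact Prod.ext e3 (Prod.ext hpq e5)
    rw [← Finset.card_image_of_injOn hinj]
    have := card_class (({p ∈ S | p.1 = x} : Finset (ℤ × ℤ × ℤ)).image (fun p => p.2.1)) L
      |c'| hm hL0 ?_ ?_
    · rw [Int.cast_abs] at this
      exact this
    · intro y hy
      rw [Finset.mem_image] at hy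
      obtain ⟨p, hp, rfl⟩ := hy
      rw [Finset.mem_filter] at hp
      exact (hS p hp.1).2.1
    · intro y hy y' hy'
      rw [Finset.mem_image] at hy hy'
      obtain ⟨p, hp, rfl⟩ := hy
      obtain ⟨q, hq, rfl⟩ := hy'
      rw [Finset.mem_filter] at hp hq
      have e1 := (hS p hp.1).2.2
      have e2 := (hS q hq.1).2.2
      rw [abs_dvd]
      have e3 : b' * (q.2.1 - p.2.1) = - (c' * (q.2.2 - p.2.2)) := by
        have e4 : b * (q.2.1 - p.2.1) = - (c * (q.2.2 - p.2.2)) := by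
          rw [hp.2] at e1
          rw [hq.2] at e2
          linarith
        rw [hb', hc'] at e4
        have : g * (b' * (q.2.1 - p.2.1)) = g * (- (c' * (q.2.2 - p.2.2))) := by
          linarith
        exact mul_left_cancel₀ hg0.ne' this
      have h5 : c' ∣ b' * (q.2.1 - p.2.1) := by
        rw [e3]; exact (Dvd.intro _ rfl).neg_right
      exact hcop.symm.dvd_of_dvd_mul_left h5
  have himg : ((S.image (fun p => p.1)).card : ℝ) ≤ 2 * L / g + 1 := by
    apply card_class _ L g hg0 hL0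
    · intro y hy
      rw [Finset.mem_image] at hy
      obtain ⟨p, hp, rfl⟩ := hy
      exact (hS p hp).1
    · have key : ∀ p ∈ S, g ∣ p.1 := by
        intro p hp
        have e1 := (hS p hp).2.2
        have h1 : g ∣ a * p.1 := by
          have : a * p.1 = - (b * p.2.1 + c * p.2.2) := by linarith
          rw [this]
          apply Dvd.dvd.neg_right
          apply dvd_add
          · exact Dvd.dvd.mul_right ⟨b', hb'⟩ _
          · exact Dvd.dvd.mul_right ⟨c', hc'⟩ _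
        exact hcopa.symm.dvd_of_dvd_mul_left h1
      intro y hy y' hy'
      rw [Finset.mem_image] at hy hy'
      obtain ⟨p, hp, rfl⟩ := hy
      obtain ⟨q, hq, rfl⟩ := hy'
      exact dvd_sub (key q hq) (key p hp)
  have hcard : (S.card : ℝ) = ∑ x ∈ S.image (fun p => p.1),
      (({p ∈ S | p.1 = x} : Finset (ℤ × ℤ × ℤ)).card : ℝ) := by
    rw [Finset.card_eq_sum_card_image (fun p => p.1) S]
    push_cast
    rfl
  have h1 : (S.card : ℝ) ≤ (2 * L / g + 1) * (2 * L / |(c' : ℝ)| + 1) := by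
    rw [hcard]
    calc _ ≤ ∑ x ∈ S.image (fun p => p.1), (2 * L / |(c' : ℝ)| + 1) := Finset.sum_le_sum hfib
      _ = ((S.image (fun p => p.1)).card : ℝ) * (2 * L / |(c' : ℝ)| + 1) := by
        rw [Finset.sum_const, nsmul_eq_mul]
      _ ≤ _ := by
        apply mul_le_mul_of_nonneg_right himg
        positivity
  have hg1 : (1 : ℝ) ≤ g := by exact_mod_cast hg0
  have hm1 : (1 : ℝ) ≤ |(c' : ℝ)| := by
    have : (1 : ℝ) ≤ ((|c'| : ℤ) : ℝ) := by exact_mod_cast hm
    rwa [Int.cast_abs] at this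
  have h2 : 2 * L / g + 1 ≤ 3 * L / g := by
    rw [div_add_one hgR.ne']
    apply div_le_div_of_nonneg_right _ hgR.le
    have : (g : ℝ) ≤ L := by
      calc (g : ℝ) ≤ g * |(c' : ℝ)| := le_mul_of_one_le_right hgR.le hm1
        _ = |(c : ℝ)| := hcabs.symm
        _ ≤ L := hcL
    linarith
  have h3 : 2 * L / |(c' : ℝ)| + 1 ≤ 3 * L / |(c' : ℝ)| := by
    rw [div_add_one hmR.ne']
    apply div_le_div_of_nonneg_right _ hmR.le
    have : |(c' : ℝ)| ≤ L := by
      calc |(c' : ℝ)| ≤ g * |(c' : ℝ)| := le_mul_of_one_le_left hmR.le hg1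
        _ = |(c : ℝ)| := hcabs.symm
        _ ≤ L := hcL
    linarith
  calc (S.card : ℝ) ≤ (2 * L / g + 1) * (2 * L / |(c' : ℝ)| + 1) := h1
    _ ≤ (3 * L / g) * (3 * L / |(c' : ℝ)|) := by
      apply mul_le_mul h2 h3 <;> positivity
    _ = 9 * L ^ 2 / |(c : ℝ)| := by
      rw [hcabs]
      field_simp
      ring

theorem abs_le_nz (v : VZ) (i : Fin 3) : |(v i : ℝ)| ≤ nz v := by
  unfold nz nrm cst
  apply Real.le_sqrt_of_sq_le
  rw [sq_abs]
  exact Finset.single_le_sum (f := fun i => (v i : ℝ) ^ 2) (fun j _ => sq_nonneg _)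
    (Finset.mem_univ i)

theorem nz_le (w : VZ) (k : Fin 3) (hk : ∀ i, |(w i : ℝ)| ≤ |(w k : ℝ)|) :
    nz w ≤ 2 * |(w k : ℝ)| := by
  unfold nz nrm cst
  apply Real.sqrt_le_iff.2
  refine ⟨by positivity, ?_⟩
  have h : ∀ i, (w i : ℝ) ^ 2 ≤ (w k : ℝ) ^ 2 := fun i => sq_le_sq.2 (hk i)
  calc ∑ i, (w i : ℝ) ^ 2 ≤ ∑ _i : Fin 3, (w k : ℝ) ^ 2 := Finset.sum_le_sum (fun i _ => h i)
    _ = 3 * (w k : ℝ) ^ 2 := by simp
    _ ≤ (2 * |(w k : ℝ)|) ^ 2 := by
      rw [mul_pow, sq_abs]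
      nlinarith [sq_nonneg (w k : ℝ)]

theorem cl_perm (σ : Equiv.Perm (Fin 3)) (w : VZ) (L : ℝ) (s : Finset VZ) (hw : Prim w)
    (hwL : nz w ≤ L) (hmax : ∀ i, |(w i : ℝ)| ≤ |(w (σ 2) : ℝ)|)
    (hs : ∀ v ∈ s, nz v ≤ L ∧ w (σ 0) * v (σ 0) + w (σ 1) * v (σ 1) + w (σ 2) * v (σ 2) = 0) :
    (s.card : ℝ) ≤ 18 * L ^ 2 / nz w := by
  have h3 : ∀ i : Fin 3, i = σ 0 ∨ i = σ 1 ∨ i = σ 2 := by
    intro i
    obtain ⟨j, rfl⟩ := σ.surjective i
    fin_cases j <;> simp
  have hc0 : w (σ 2) ≠ 0 := by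
    intro h0
    have : ∀ i, w i = 0 := by
      intro i
      have := hmax i
      rw [h0] at this
      simp only [Int.cast_zero, abs_zero] at this
      have h4 := abs_nonpos_iff.1 this
      exact_mod_cast h4
    have h5 := hw 2 (by intro i; rw [this i]; exact dvd_zero _)
    rw [Int.isUnit_iff] at h5
    omega
  have hinj : Set.InjOn (fun v : VZ => (v (σ 0), v (σ 1), v (σ 2))) (s : Set VZ) := by
    intro v _ v' _ hvv
    simp only [Prod.mk.injEq] at hvv
    funext i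
    rcases h3 i with h | h | h
    · rw [h]; exact hvv.1
    · rw [h]; exact hvv.2.1
    · rw [h]; exact hvv.2.2
  have hcore := core (w (σ 0)) (w (σ 1)) (w (σ 2)) hc0 (by
      intro d hd0 hd1 hd2
      apply hw d
      intro i
      rcases h3 i with h | h | h
      · rw [h]; exact hd0
      · rw [h]; exact hd1
      · rw [h]; exact hd2) L ((abs_le_nz w _).trans hwL)
    (s.image (fun v : VZ => (v (σ 0), v (σ 1), v (σ 2)))) (by
      intro p hp
      rw [Finset.mem_image] at hp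
      obtain ⟨v, hv, rfl⟩ := hp
      have h := hs v hv
      exact ⟨(abs_le_nz v _).trans h.1, (abs_le_nz v _).trans h.1, h.2⟩)
  rw [Finset.card_image_of_injOn hinj] at hcore
  have hpos : 0 < |(w (σ 2) : ℝ)| := by
    apply abs_pos.2
    exact_mod_cast hc0
  have hnzpos : 0 < nz w := lt_of_lt_of_le hpos (abs_le_nz w _)
  have hle := nz_le w (σ 2) hmax
  calc (s.card : ℝ) ≤ 9 * L ^ 2 / |(w (σ 2) : ℝ)| := hcore
    _ ≤ 9 * L ^ 2 / (nz w / 2) := by
      apply div_le_div_of_nonneg_left (by positivity) (by positivity)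
      linarith
    _ = 18 * L ^ 2 / nz w := by
      field_simp
      ring

theorem cl : KF.T_CL := by
  refine ⟨18, ?_⟩
  intro w L s hw hwL hs
  obtain ⟨k, -, hk⟩ := Finset.exists_max_image (Finset.univ : Finset (Fin 3))
    (fun i => |(w i : ℝ)|) ⟨0, Finset.mem_univ _⟩
  have hk' : ∀ i, |(w i : ℝ)| ≤ |(w k : ℝ)| := fun i => hk i (Finset.mem_univ i)
  apply cl_perm (Equiv.swap k 2) w L s hw hwL
  · simpa using hk'
  · intro v hv
    obtain ⟨h1, h2⟩ := hs v hv
    refine ⟨h1, ?_⟩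
    unfold dotZ at h2
    fin_cases k
    · have e0 : (Equiv.swap (0 : Fin 3) 2) 0 = 2 := by decide
      have e1 : (Equiv.swap (0 : Fin 3) 2) 1 = 1 := by decide
      have e2 : (Equiv.swap (0 : Fin 3) 2) 2 = 0 := by decide
      simp only [Fin.zero_eta, Fin.isValue]
      rw [e0, e1, e2]
      linarith
    · have e0 : (Equiv.swap (1 : Fin 3) 2) 0 = 0 := by decide
      have e1 : (Equiv.swap (1 : Fin 3) 2) 1 = 2 := by decide
      have e2 : (Equiv.swap (1 : Fin 3) 2) 2 = 1 := by decide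
      simp only [Fin.mk_one, Fin.isValue]
      rw [e0, e1, e2]
      linarith
    · have e0 : (Equiv.swap (2 : Fin 3) 2) 0 = 0 := by decide
      have e1 : (Equiv.swap (2 : Fin 3) 2) 1 = 1 := by decide
      have e2 : (Equiv.swap (2 : Fin 3) 2) 2 = 2 := by decide
      simp only [Fin.reduceFinMk, Fin.isValue]
      rw [e0, e1, e2]
      exact h2

end KF65
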