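import Mathlib
import Pool.Agent.H22.KF.Targets

/-!
# MP_3fd637_nt, module COV, part A: the volume of the reduced region
-/

open MeasureTheory Filter Topology
open scoped ENNReal

namespace KF65

open KF

/-- dot product -/
def dt (x y : V3) : ℝ := x 0 * y 0 + x 1 * y 1 + x 2 * y 2

/-- cross product -/
def cr (x y : V3) : V3 := ![x 1 * y 2 - x 2 * y 1, x 2 * y 0 - x 0 * y 2, x 0 * y 1 - x 1 * y 0]

def Ef (a b : V3) : ℝ := dt a a * dt b b - dt a b ^ 2
def Hf (a b d : V3) : ℝ := dt a a * dt b d - dt a b * dt a d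
def Df (a b d : V3) : ℝ := dt (cr a b) d

theorem Ef_eq (a b : V3) : Ef a b = dt (cr a b) (cr a b) := by
  simp only [Ef, dt, cr, Matrix.cons_val_zero, Matrix.cons_val_one, Matrix.cons_val]
  ring

theorem key_id (a b d : V3) :
    Ef a b * Ef a d = Hf a b d ^ 2 + dt a a * Df a b d ^ 2 := by
  simp only [Ef, Hf, Df, dt, cr, Matrix.cons_val_zero, Matrix.cons_val_one, Matrix.cons_val]
  ring

theorem dt_self_nonneg (a : V3) : 0 ≤ dt a a := by
  unfold dt
  nlinarith [mul_self_nonneg (a 0), mul_self_nonneg (a 1), mul_self_nonneg (a 2)]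

theorem Ef_nonneg (a b : V3) : 0 ≤ Ef a b := by
  rw [Ef_eq]; exact dt_self_nonneg _

/-- Cauchy-Schwarz -/
theorem dt_sq_le (a b : V3) : dt a b ^ 2 ≤ dt a a * dt b b := by
  have := Ef_nonneg a b
  unfold Ef at this
  linarith

/-- the reduced region -/
def Reg : Set (V3 × V3 × V3) :=
  {p | 1 ≤ Df p.1 p.2.1 p.2.2 ^ 2 ∧ Df p.1 p.2.1 p.2.2 ^ 2 < 64 ∧
    dt p.1 p.1 ^ 2 ≤ 2 * Ef p.1 p.2.1 ∧ Ef p.1 p.2.1 ^ 2 ≤ 128 * dt p.1 p.1 ∧
    |dt p.1 p.2.1| ≤ dt p.1 p.1 / 2 ∧ |dt p.1 p.2.2| ≤ dt p.1 p.1 / 2 ∧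
    |Hf p.1 p.2.1 p.2.2| ≤ Ef p.1 p.2.1 / 2}

theorem dt_cont {X : Type*} [TopologicalSpace X] {f g : X → V3} (hf : Continuous f)
    (hg : Continuous g) : Continuous (fun x => dt (f x) (g x)) := by
  unfold dt
  fun_prop

theorem Ef_cont {X : Type*} [TopologicalSpace X] {f g : X → V3} (hf : Continuous f)
    (hg : Continuous g) : Continuous (fun x => Ef (f x) (g x)) := by
  unfold Ef dt
  fun_prop

theorem Hf_cont {X : Type*} [TopologicalSpace X] {f g h : X → V3} (hf : Continuous f)
    (hg : Continuous g) (hh : Continuous h) : Continuous (fun x => Hf (f x) (g x) (h x)) := by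
  unfold Hf dt
  fun_prop

theorem Df_cont {X : Type*} [TopologicalSpace X] {f g h : X → V3} (hf : Continuous f)
    (hg : Continuous g) (hh : Continuous h) : Continuous (fun x => Df (f x) (g x) (h x)) := by
  unfold Df dt cr
  simp only [Matrix.cons_val_zero, Matrix.cons_val_one, Matrix.cons_val]
  fun_prop

theorem Reg_meas : MeasurableSet Reg := by
  have c1 : Continuous (fun p : V3 × V3 × V3 => p.1) := continuous_fst
  have c2 : Continuous (fun p : V3 × V3 × V3 => p.2.1) := by fun_prop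
  have c3 : Continuous (fun p : V3 × V3 × V3 => p.2.2) := by fun_prop
  have e1 := (Df_cont c1 c2 c3).pow 2
  have e2 := (Ef_cont c1 c2)
  have e3 := (dt_cont c1 c1)
  have e4 := (dt_cont c1 c2)
  have e5 := (dt_cont c1 c3)
  have e6 := (Hf_cont c1 c2 c3)
  unfold Reg
  refine MeasurableSet.inter (measurableSet_le measurable_const e1.measurable) ?_
  refine MeasurableSet.inter (measurableSet_lt e1.measurable measurable_const) ?_
  refine MeasurableSet.inter
    (measurableSet_le (e3.pow 2).measurable (e2.const_smul (2 : ℝ)).measurable) ?_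
  refine MeasurableSet.inter
    (measurableSet_le (e2.pow 2).measurable (e3.const_smul (128 : ℝ)).measurable) ?_
  refine MeasurableSet.inter
    (measurableSet_le e4.abs.measurable (e3.div_const 2).measurable) ?_
  refine MeasurableSet.inter
    (measurableSet_le e5.abs.measurable (e3.div_const 2).measurable) ?_
  exact measurableSet_le e6.abs.measurable (e2.div_const 2).measurable

/-- volume of a linear image of a box -/
theorem vol_box (M : MR) (hM : M.det ≠ 0) (r : Fin 3 → ℝ) (S : Set V3)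
    (hS : ∀ x ∈ S, ∀ i, |M.mulVec x i| ≤ r i) (V : ℝ) (hV : 8 * (r 0 * r 1 * r 2) ≤ V * |M.det|)
    (hr : ∀ i, 0 ≤ r i) :
    volume S ≤ ENNReal.ofReal V := by
  have hsub : S ⊆ (Matrix.toLin' M) ⁻¹' (Set.Icc (-r) r) := by
    intro x hx
    rw [Set.mem_preimage, Set.mem_Icc, Matrix.toLin'_apply]
    exact ⟨fun i => (abs_le.1 (hS x hx i)).1, fun i => (abs_le.1 (hS x hx i)).2⟩
  refine (measure_mono hsub).trans ?_
  rw [Measure.addHaar_preimage_linearMap _ (by rw [LinearMap.det_toLin']; exact hM),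
    LinearMap.det_toLin', Real.volume_Icc_pi, Fin.prod_univ_three]
  have e : ∀ i, r i - (-r) i = 2 * r i := by
    intro i; simp only [Pi.neg_apply]; ring
  rw [e, e, e, ← ENNReal.ofReal_mul (by have := hr 0; positivity),
    ← ENNReal.ofReal_mul (by have := hr 0; have := hr 1; positivity),
    ← ENNReal.ofReal_mul (abs_nonneg _)]
  apply ENNReal.ofReal_le_ofReal
  rw [abs_inv]
  have hpos : 0 < |M.det| := abs_pos.2 hM
  rw [inv_mul_le_iff₀ hpos]
  nlinarith

theorem pos_of_Df {a b d : V3} (h : 1 ≤ Df a b d ^ 2) : 0 < dt a a ∧ 0 < Ef a b := by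
  have h1 : Df a b d ^ 2 ≤ Ef a b * dt d d := by
    rw [Ef_eq]; exact dt_sq_le _ _
  have hE : 0 < Ef a b := by
    rcases (Ef_nonneg a b).eq_or_lt with h0 | h0
    · rw [← h0] at h1
      linarith
    · exact h0
  refine ⟨?_, hE⟩
  rcases (dt_self_nonneg a).eq_or_lt with h0 | h0
  · unfold Ef at hE
    rw [← h0] at hE
    nlinarith [sq_nonneg (dt a b)]
  · exact h0

theorem slice_d (a b : V3) : volume {d : V3 | (a, b, d) ∈ Reg} ≤ ENNReal.ofReal 16 := by
  rcases Set.eq_empty_or_nonempty {d : V3 | (a, b, d) ∈ Reg} with h | ⟨d0, hd0⟩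
  · rw [h]; simp
  obtain ⟨hA, hE⟩ := pos_of_Df hd0.1
  set w : V3 := fun i => dt a a * b i - dt a b * a i with hw
  set M : MR := Matrix.of ![a, w, cr a b] with hM
  have hdet : M.det = dt a a * Ef a b := by
    rw [Matrix.det_fin_three, hM]
    simp only [Matrix.of_apply, Matrix.cons_val_zero, Matrix.cons_val_one, Matrix.cons_val, hw,
      cr, Ef, dt]
    ring
  have hpos : 0 < M.det := by rw [hdet]; positivity
  apply vol_box M hpos.ne' ![dt a a / 2, Ef a b / 2, 8] _ _ 16
  · rw [abs_of_pos hpos, hdet]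
    simp only [Matrix.cons_val_zero, Matrix.cons_val_one, Matrix.cons_val]
    linarith
  · intro i
    fin_cases i
    · change 0 ≤ dt a a / 2; positivity
    · change 0 ≤ Ef a b / 2; positivity
    · simp
  · intro d hd i
    obtain ⟨h1, h2, h3, h4, h5, h6, h7⟩ := hd
    simp only at h1 h2 h3 h4 h5 h6 h7
    have hdot : ∀ x y : V3, x ⬝ᵥ y = dt x y := by
      intro x y
      simp only [dotProduct, Fin.sum_univ_three, dt]
    have m0 : M.mulVec d 0 = dt a d := hdot a d
    have m1 : M.mulVec d 1 = dt w d := hdot w d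
    have m2 : M.mulVec d 2 = dt (cr a b) d := hdot _ d
    have e : dt w d = Hf a b d := by
      simp only [hw, dt, Hf]; ring
    fin_cases i
    · change |M.mulVec d 0| ≤ dt a a / 2
      rw [m0]; exact h6
    · change |M.mulVec d 1| ≤ Ef a b / 2
      rw [m1, e]; exact h7
    · change |M.mulVec d 2| ≤ 8
      rw [m2]
      have : |Df a b d| < 8 := by
        apply abs_lt_of_sq_lt_sq _ (by norm_num)
        linarith
      exact this.le

/-- the set of admissible `b` for given `a` -/
def Bs (a : V3) : Set V3 :=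
  {b | 0 < dt a a ∧ dt a a ^ 2 ≤ 2 * Ef a b ∧ Ef a b ^ 2 ≤ 128 * dt a a ∧
    |dt a b| ≤ dt a a / 2}

theorem bound_ab {a b : V3} (h : b ∈ Bs a) :
    Real.sqrt (dt a a) ^ 3 ≤ 24 ∧ dt b b * Real.sqrt (dt a a) ≤ 18 := by
  obtain ⟨h1, h2, h3, h4⟩ := h
  set s := Real.sqrt (dt a a) with hs
  have hs0 : 0 < s := Real.sqrt_pos.2 h1
  have hss : s ^ 2 = dt a a := Real.sq_sqrt h1.le
  have hE0 := Ef_nonneg a b
  have hE : Ef a b ≤ 12 * s := by
    apply le_of_sq_le_sq _ (by positivity)
    nlinarith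
  have h5 : s ^ 4 ≤ 24 * s := by
    calc s ^ 4 = (dt a a) ^ 2 := by rw [← hss]; ring
      _ ≤ 2 * Ef a b := h2
      _ ≤ 24 * s := by linarith
  have h6 : s ^ 3 ≤ 24 := by
    have : s * s ^ 3 ≤ s * 24 := by nlinarith
    exact le_of_mul_le_mul_left this hs0
  refine ⟨h6, ?_⟩
  have h7 : dt a a * dt b b = Ef a b + dt a b ^ 2 := by unfold Ef; ring
  have h8 : dt a b ^ 2 ≤ (dt a a / 2) ^ 2 := sq_le_sq' (by linarith [(abs_le.1 h4).1])
    (abs_le.1 h4).2
  rw [← hss] at h7 h8
  have h9 : s ^ 2 * dt b b ≤ 12 * s + s ^ 4 / 4 := by nlinarith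
  have h10 : s * (dt b b * s) ≤ s * 18 := by nlinarith
  exact le_of_mul_le_mul_left h10 hs0

theorem le_of_max (a : V3) (k : Fin 3) (hk : ∀ i, |a i| ≤ |a k|) : Real.sqrt (dt a a) ≤ 2 * |a k| := by
  apply Real.sqrt_le_iff.2
  refine ⟨by positivity, ?_⟩
  have h : ∀ i, a i ^ 2 ≤ a k ^ 2 := fun i => sq_le_sq.2 (hk i)
  have h0 := h 0
  have h1 := h 1
  have h2 := h 2
  have : (2 * |a k|) ^ 2 = 4 * a k ^ 2 := by rw [mul_pow, sq_abs]; ring
  rw [this]
  unfold dt
  nlinarith [sq_nonneg (a k)]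

theorem slice_b (a : V3) : volume (Bs a) ≤ ENNReal.ofReal 144 := by
  rcases Set.eq_empty_or_nonempty (Bs a) with h | ⟨b0, hb0⟩
  · rw [h]; simp
  have hA : 0 < dt a a := hb0.1
  set s := Real.sqrt (dt a a) with hs
  have hs0 : 0 < s := Real.sqrt_pos.2 hA
  have hss : s ^ 2 = dt a a := Real.sq_sqrt hA.le
  obtain ⟨k, -, hk⟩ := Finset.exists_max_image (Finset.univ : Finset (Fin 3))
    (fun i => |a i|) ⟨0, Finset.mem_univ _⟩
  have hk' : ∀ i, |a i| ≤ |a k| := fun i => hk i (Finset.mem_univ i)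
  have hmax := le_of_max a k hk'
  rw [← hs] at hmax
  set R := Real.sqrt (18 / s) with hR
  have hR0 : 0 ≤ R := Real.sqrt_nonneg _
  have hRR : R ^ 2 = 18 / s := Real.sq_sqrt (by positivity)
  have hRs : R ^ 2 * s = 18 := by rw [hRR]; field_simp
  have hb : ∀ b ∈ Bs a, ∀ i, |b i| ≤ R := by
    intro b hb i
    apply abs_le_of_sq_le_sq _ hR0
    obtain ⟨-, h2⟩ := bound_ab hb
    rw [← hs] at h2
    have h3 : b i ^ 2 ≤ dt b b := by
      unfold dt
      fin_cases i
      · simp only [Fin.zero_eta]; nlinarith [mul_self_nonneg (b 1), mul_self_nonneg (b 2)]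
      · simp only [Fin.mk_one]; nlinarith [mul_self_nonneg (b 0), mul_self_nonneg (b 2)]
      · simp only [Fin.reduceFinMk]; nlinarith [mul_self_nonneg (b 1), mul_self_nonneg (b 0)]
    have h4 : b i ^ 2 * s ≤ R ^ 2 * s := by
      rw [hRs]
      nlinarith
    exact le_of_mul_le_mul_right h4 hs0
  have hab : ∀ b ∈ Bs a, |dt a b| ≤ s ^ 2 / 2 := by
    intro b hb
    rw [hss]; exact hb.2.2.2
  have hak : a k ≠ 0 := by
    intro h0
    rw [h0, abs_zero] at hmax
    linarith
  have hnum : 8 * (R * R * (s ^ 2 / 2)) ≤ 144 * |a k| := by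
    have : 8 * (R * R * (s ^ 2 / 2)) = 4 * (R ^ 2 * s) * s := by ring
    rw [this, hRs]
    linarith
  fin_cases k
  · simp only [Fin.zero_eta] at hak hnum
    have hdet : (!![a 0, a 1, a 2; 0, 1, 0; 0, 0, 1] : MR).det = a 0 := by
      rw [Matrix.det_fin_three]; simp
    apply vol_box !![a 0, a 1, a 2; 0, 1, 0; 0, 0, 1] (by rw [hdet]; exact hak)
      ![s ^ 2 / 2, R, R]
    · intro b hb' i
      fin_cases i
      · simpa [Matrix.mulVec, dotProduct, Fin.sum_univ_three, dt] using hab b hb'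
      · simpa [Matrix.mulVec, dotProduct, Fin.sum_univ_three, dt] using hb b hb' 1
      · simpa [Matrix.mulVec, dotProduct, Fin.sum_univ_three, dt] using hb b hb' 2
    · rw [hdet]
      simp only [Matrix.cons_val_zero, Matrix.cons_val_one, Matrix.cons_val]
      linarith
    · intro i
      fin_cases i
      · change 0 ≤ s ^ 2 / 2; positivity
      · simpa using hR0
      · simpa using hR0
  · simp only [Fin.mk_one] at hak hnum
    have hdet : (!![1, 0, 0; a 0, a 1, a 2; 0, 0, 1] : MR).det = a 1 := by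
      rw [Matrix.det_fin_three]; simp
    apply vol_box !![1, 0, 0; a 0, a 1, a 2; 0, 0, 1] (by rw [hdet]; exact hak)
      ![R, s ^ 2 / 2, R]
    · intro b hb' i
      fin_cases i
      · simpa [Matrix.mulVec, dotProduct, Fin.sum_univ_three, dt] using hb b hb' 0
      · simpa [Matrix.mulVec, dotProduct, Fin.sum_univ_three, dt] using hab b hb'
      · simpa [Matrix.mulVec, dotProduct, Fin.sum_univ_three, dt] using hb b hb' 2
    · rw [hdet]
      simp only [Matrix.cons_val_zero, Matrix.cons_val_one, Matrix.cons_val]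
      linarith
    · intro i
      fin_cases i
      · simpa using hR0
      · change 0 ≤ s ^ 2 / 2; positivity
      · simpa using hR0
  · simp only [Fin.reduceFinMk] at hak hnum
    have hdet : (!![1, 0, 0; 0, 1, 0; a 0, a 1, a 2] : MR).det = a 2 := by
      rw [Matrix.det_fin_three]; simp
    apply vol_box !![1, 0, 0; 0, 1, 0; a 0, a 1, a 2] (by rw [hdet]; exact hak)
      ![R, R, s ^ 2 / 2]
    · intro b hb' i
      fin_cases i
      · simpa [Matrix.mulVec, dotProduct, Fin.sum_univ_three, dt] using hb b hb' 0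
      · simpa [Matrix.mulVec, dotProduct, Fin.sum_univ_three, dt] using hb b hb' 1
      · simpa [Matrix.mulVec, dotProduct, Fin.sum_univ_three, dt] using hab b hb'
    · rw [hdet]
      simp only [Matrix.cons_val_zero, Matrix.cons_val_one, Matrix.cons_val]
      linarith
    · intro i
      fin_cases i
      · simpa using hR0
      · simpa using hR0
      · change 0 ≤ s ^ 2 / 2; positivity

theorem Reg_sub {a b d : V3} (h : (a, b, d) ∈ Reg) : b ∈ Bs a :=
  ⟨(pos_of_Df h.1).1, h.2.2.1, h.2.2.2.1, h.2.2.2.2.1⟩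

theorem Bs_meas (a : V3) : MeasurableSet (Bs a) := by
  have c0 : Continuous (fun _ : V3 => a) := continuous_const
  have c1 : Continuous (fun b : V3 => b) := continuous_id
  unfold Bs
  refine MeasurableSet.inter (MeasurableSet.const _) ?_
  refine MeasurableSet.inter
    (measurableSet_le measurable_const ((Ef_cont c0 c1).const_smul (2 : ℝ)).measurable) ?_
  refine MeasurableSet.inter
    (measurableSet_le ((Ef_cont c0 c1).pow 2).measurable measurable_const) ?_
  exact measurableSet_le (dt_cont c0 c1).abs.measurable measurable_const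

theorem a_bound {a b : V3} (h : b ∈ Bs a) : a ∈ Set.Icc (fun _ : Fin 3 => (-3 : ℝ)) (fun _ => 3) := by
  obtain ⟨h1, -⟩ := bound_ab h
  have hs : Real.sqrt (dt a a) ≤ 3 := by
    by_contra hcon
    push Not at hcon
    have : (3 : ℝ) ^ 3 < Real.sqrt (dt a a) ^ 3 := pow_lt_pow_left₀ hcon (by norm_num) (by norm_num)
    linarith
  have h2 : dt a a ≤ 9 := by
    have := Real.sqrt_le_iff.1 hs
    linarith [this.2]
  have h3 : ∀ i, |a i| ≤ 3 := by
    intro i
    apply abs_le_of_sq_le_sq _ (by norm_num)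
    unfold dt at h2
    fin_cases i
    · simp only [Fin.zero_eta]; nlinarith [mul_self_nonneg (a 1), mul_self_nonneg (a 2)]
    · simp only [Fin.mk_one]; nlinarith [mul_self_nonneg (a 0), mul_self_nonneg (a 2)]
    · simp only [Fin.reduceFinMk]; nlinarith [mul_self_nonneg (a 1), mul_self_nonneg (a 0)]
  exact ⟨fun i => (abs_le.1 (h3 i)).1, fun i => (abs_le.1 (h3 i)).2⟩

theorem slice_bd (a : V3) : (volume : Measure (V3 × V3)) {p | (a, p.1, p.2) ∈ Reg}
    ≤ ENNReal.ofReal 16 * ENNReal.ofReal 144 := by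
  have hm : MeasurableSet {p : V3 × V3 | (a, p.1, p.2) ∈ Reg} :=
    (measurable_const.prodMk measurable_id) Reg_meas
  rw [Measure.volume_eq_prod, Measure.prod_apply hm]
  calc ∫⁻ b, volume (Prod.mk b ⁻¹' {p : V3 × V3 | (a, p.1, p.2) ∈ Reg})
      ≤ ∫⁻ b, (Bs a).indicator (fun _ => ENNReal.ofReal 16) b := by
        apply lintegral_mono
        intro b
        by_cases hb : b ∈ Bs a
        · rw [Set.indicator_of_mem hb]
          exact slice_d a b
        · rw [Set.indicator_of_notMem hb]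
          have : Prod.mk b ⁻¹' {p : V3 × V3 | (a, p.1, p.2) ∈ Reg} = ∅ := by
            ext d
            simp only [Set.mem_preimage, Set.mem_ofPred_eq, Set.mem_empty_iff_false, iff_false]
            intro h
            exact hb (Reg_sub h)
          simp only [this, measure_empty, le_refl]
    _ = ENNReal.ofReal 16 * volume (Bs a) := by
        rw [lintegral_indicator (Bs_meas a), setLIntegral_const]
    _ ≤ _ := by gcongr; exact slice_b a

theorem Reg_vol : (volume : Measure (V3 × V3 × V3)) Reg < ∞ := by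
  rw [Measure.volume_eq_prod, Measure.prod_apply Reg_meas]
  have hI : MeasurableSet (Set.Icc (fun _ : Fin 3 => (-3 : ℝ)) (fun _ => 3)) := measurableSet_Icc
  calc ∫⁻ a, volume (Prod.mk a ⁻¹' Reg)
      ≤ ∫⁻ a, (Set.Icc (fun _ : Fin 3 => (-3 : ℝ)) (fun _ => 3)).indicator
          (fun _ => ENNReal.ofReal 16 * ENNReal.ofReal 144) a := by
        apply lintegral_mono
        intro a
        by_cases ha : a ∈ Set.Icc (fun _ : Fin 3 => (-3 : ℝ)) (fun _ => 3)
        · rw [Set.indicator_of_mem ha]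
          exact slice_bd a
        · rw [Set.indicator_of_notMem ha]
          have : Prod.mk a ⁻¹' Reg = ∅ := by
            ext p
            simp only [Set.mem_preimage, Set.mem_empty_iff_false, iff_false]
            intro h
            exact ha (a_bound (Reg_sub h))
          simp only [this, measure_empty, le_refl]
    _ = ENNReal.ofReal 16 * ENNReal.ofReal 144 *
          volume (Set.Icc (fun _ : Fin 3 => (-3 : ℝ)) (fun _ => 3)) := by
        rw [lintegral_indicator hI, setLIntegral_const]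
    _ < ∞ := by
        apply ENNReal.mul_lt_top
        · exact ENNReal.mul_lt_top ENNReal.ofReal_lt_top ENNReal.ofReal_lt_top
        · rw [Real.volume_Icc_pi]
          exact ENNReal.prod_lt_top (fun _ _ => ENNReal.ofReal_lt_top)

end KF65
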