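import Mathlib
import Pool.Agent.H22.KF.Targets
import Pool.Agent.H65.KF.COVA

/-!
# MP_3fd637_nt, module COV: finite covolume of `GL(3, ℤ) × 2^ℤ` (reduction theory)
-/

open MeasureTheory Filter Topology
open scoped ENNReal

namespace KF65

open KF

/-- the columns of a matrix -/
def col (X : MR) (j : Fin 3) : V3 := fun i => X i j

/-- the map to the three columns -/
def colmap : (Fin 3 → V3) →ₗ[ℝ] V3 × V3 × V3 where
  toFun x := (fun i => x i 0, fun i => x i 1, fun i => x i 2)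
  map_add' _ _ := rfl
  map_smul' _ _ := rfl

def coleq : (Fin 3 → V3) ≃ₗ[ℝ] V3 × V3 × V3 where
  toFun := colmap
  invFun p := fun i => ![p.1 i, p.2.1 i, p.2.2 i]
  map_add' x y := rfl
  map_smul' c x := rfl
  left_inv x := by
    funext i j
    fin_cases j <;> rfl
  right_inv p := rfl

theorem coleq_apply (x : Fin 3 → V3) :
    coleq x = (fun i => x i 0, fun i => x i 1, fun i => x i 2) := rfl

/-- the domain -/
def Dom : Set GR := {g | coleq (ent g) ∈ Reg}

theorem coleq_cont : Continuous coleq := by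
  have := (coleq.toContinuousLinearEquiv).continuous
  exact this

theorem Dom_meas : MeasurableSet Dom :=
  (coleq_cont.comp isOpenEmbedding_ent.continuous).measurable Reg_meas

theorem col_ent (g : GR) :
    coleq (ent g) = (col (g : MR) 0, col (g : MR) 1, col (g : MR) 2) := rfl

theorem det_eq_Df (X : MR) : X.det = Df (col X 0) (col X 1) (col X 2) := by
  rw [Matrix.det_fin_three]
  simp only [Df, dt, cr, col, Matrix.cons_val_zero, Matrix.cons_val_one, Matrix.cons_val]
  ring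

theorem pre_vol : (volume : Measure (Fin 3 → V3)) (coleq ⁻¹' Reg) < ∞ := by
  have e : (volume : Measure (Fin 3 → V3)) (coleq ⁻¹' Reg)
      = (Measure.map (coleq.toContinuousLinearEquiv) (volume : Measure (Fin 3 → V3))) Reg := by
    rw [Measure.map_apply (coleq.toContinuousLinearEquiv).continuous.measurable Reg_meas]
    rfl
  have i0 : (volume : Measure (Fin 3 → V3)).IsAddHaarMeasure :=
    Measure.instIsAddHaarMeasureForallVolumeOfMeasurableAddOfSigmaFinite
  have i1 : (volume : Measure (V3 × V3)).IsAddHaarMeasure :=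
    Measure.prod.instIsAddHaarMeasure _ _
  have i2 : (volume : Measure (V3 × V3 × V3)).IsAddHaarMeasure :=
    Measure.prod.instIsAddHaarMeasure _ _
  rw [e, Measure.isAddLeftInvariant_eq_smul
    (Measure.map (coleq.toContinuousLinearEquiv) (volume : Measure (Fin 3 → V3)))
    (volume : Measure (V3 × V3 × V3)), Measure.smul_apply, ENNReal.smul_def, smul_eq_mul]
  exact ENNReal.mul_lt_top ENNReal.coe_lt_top Reg_vol

theorem Dom_vol : haarG Dom < ∞ := by
  unfold haarG
  rw [withDensity_apply _ Dom_meas]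
  calc ∫⁻ g in Dom, ENNReal.ofReal ((|detR g| ^ 3)⁻¹) ∂(Measure.comap ent volume)
      ≤ ∫⁻ _ in Dom, 1 ∂(Measure.comap ent volume) := by
        apply setLIntegral_mono measurable_const
        intro g hg
        have h1 : 1 ≤ Df (col (g : MR) 0) (col (g : MR) 1) (col (g : MR) 2) ^ 2 := hg.1
        rw [← det_eq_Df] at h1
        have h2 : 1 ≤ |detR g| := by
          unfold detR
          exact (one_le_sq_iff_one_le_abs _).1 h1
        rw [← ENNReal.ofReal_one]
        apply ENNReal.ofReal_le_ofReal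
        exact inv_le_one_of_one_le₀ (one_le_pow₀ h2)
    _ = Measure.comap ent volume Dom := by rw [setLIntegral_one]
    _ = volume (ent '' Dom) := isOpenEmbedding_ent.measurableEmbedding.comap_apply _ _
    _ ≤ volume (coleq ⁻¹' Reg) := by
        apply measure_mono
        rintro _ ⟨g, hg, rfl⟩
        exact hg
    _ < ∞ := pre_vol

/-! ### reduction -/

theorem lowerb (N : MR) (hN : N.det ≠ 0) :
    ∃ κ : ℝ, 0 < κ ∧ ∀ v : VZ, v ≠ 0 → κ ≤ dt (N.mulVec (cst v)) (N.mulVec (cst v)) := by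
  set B := N⁻¹ with hB
  set S : ℝ := ∑ i, ∑ j, B i j ^ 2 with hS
  have hS0 : 0 ≤ S := Finset.sum_nonneg (fun i _ => Finset.sum_nonneg (fun j _ => sq_nonneg _))
  refine ⟨1 / (1 + S), by positivity, ?_⟩
  intro v hv
  set y := N.mulVec (cst v) with hy
  have hvy : cst v = B.mulVec y := by
    rw [hy, Matrix.mulVec_mulVec, hB, Matrix.nonsing_inv_mul _ (isUnit_iff_ne_zero.2 hN),
      Matrix.one_mulVec]
  have hex : ∃ i, v i ≠ 0 := by
    by_contra hcon
    push Not at hcon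
    exact hv (funext hcon)
  obtain ⟨i, hi⟩ := hex
  have h1 : (1 : ℝ) ≤ (v i : ℝ) ^ 2 := by
    have : (1 : ℤ) ≤ (v i) ^ 2 := by
      have := Int.one_le_abs hi
      nlinarith [abs_mul_abs_self (v i), abs_nonneg (v i)]
    exact_mod_cast this
  have h2 : (v i : ℝ) = ∑ j, B i j * y j := by
    have := congrFun hvy i
    exact this
  have h3 : (∑ j, B i j * y j) ^ 2 ≤ (∑ j, B i j ^ 2) * ∑ j, y j ^ 2 :=
    Finset.sum_mul_sq_le_sq_mul_sq _ _ _
  have h4 : ∑ j, B i j ^ 2 ≤ S :=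
    Finset.single_le_sum (f := fun i => ∑ j, B i j ^ 2)
      (fun i _ => Finset.sum_nonneg (fun j _ => sq_nonneg _)) (Finset.mem_univ i)
  have h5 : ∑ j, y j ^ 2 = dt y y := by
    rw [Fin.sum_univ_three]; unfold dt; ring
  rw [← h2, h5] at h3
  have h6 := dt_self_nonneg y
  rw [div_le_iff₀ (by positivity)]
  nlinarith

theorem cr_mulVec (G : MR) (v u : V3) :
    cr (G.mulVec v) (G.mulVec u) = (G.adjugate).transpose.mulVec (cr v u) := by
  funext i
  rw [Matrix.adjugate_fin_three]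
  fin_cases i <;>
  · simp only [cr, Matrix.mulVec, dotProduct, Fin.sum_univ_three, Matrix.transpose_apply,
      Matrix.of_apply, Matrix.cons_val', Matrix.cons_val_zero, Matrix.cons_val_one,
      Matrix.cons_val, Matrix.cons_val_fin_one, Fin.zero_eta, Fin.mk_one, Fin.reduceFinMk]
    ring

theorem cst_cr (v u : VZ) : cr (cst v) (cst u) = cst (crossZ v u) := by
  funext i
  fin_cases i <;> simp [cr, cst, crossZ]

/-- integer column of a unimodular matrix -/
def colZ (X : MZ) (j : Fin 3) : VZ := fun i => X i j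

theorem colZ_ne (γ : GZ) : colZ (γ : MZ) 0 ≠ 0 ∧ crossZ (colZ (γ : MZ) 0) (colZ (γ : MZ) 1) ≠ 0 := by
  have hu : IsUnit (γ : MZ).det := (Matrix.isUnit_iff_isUnit_det _).1 γ.isUnit
  have hd : (γ : MZ).det ≠ 0 := hu.ne_zero
  constructor
  · intro h
    apply hd
    rw [Matrix.det_fin_three]
    have h0 := congrFun h 0
    have h1 := congrFun h 1
    have h2 := congrFun h 2
    simp only [colZ, Pi.zero_apply] at h0 h1 h2
    rw [h0, h1, h2]; ring
  · intro h
    apply hd
    rw [Matrix.det_fin_three]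
    have h0 := congrFun h 0
    have h1 := congrFun h 1
    have h2 := congrFun h 2
    simp only [colZ, crossZ, Pi.zero_apply, Matrix.cons_val_zero, Matrix.cons_val_one,
      Matrix.cons_val] at h0 h1 h2
    linear_combination (γ : MZ) 0 2 * h0 + (γ : MZ) 1 2 * h1 + (γ : MZ) 2 2 * h2

/-- the potential -/
def Pot (X : MR) : ℝ := dt (col X 0) (col X 0) * Ef (col X 0) (col X 1)

/-- real version of an integer matrix -/
def rz (N : MZ) : MR := N.map (Int.cast : ℤ → ℝ)

theorem rz_mul (N N' : MZ) : rz (N * N') = rz N * rz N' := by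
  unfold rz
  exact Matrix.map_mul_intCast N N'

theorem col_mul (G : MR) (N : MZ) (j : Fin 3) : col (G * rz N) j = G.mulVec (cst (colZ N j)) := by
  funext i
  simp [col, rz, Matrix.mul_apply, Matrix.mulVec, dotProduct, cst, colZ]

theorem Pot_lower (G : MR) (hG : G.det ≠ 0) :
    ∃ κ : ℝ, 0 < κ ∧ ∀ γ : GZ, κ ≤ Pot (G * rz (γ : MZ)) := by
  obtain ⟨κ1, h1, H1⟩ := lowerb G hG
  obtain ⟨κ2, h2, H2⟩ := lowerb (G.adjugate).transpose (by
    rw [Matrix.det_transpose, Matrix.det_adjugate]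
    exact pow_ne_zero _ hG)
  refine ⟨κ1 * κ2, by positivity, ?_⟩
  intro γ
  obtain ⟨n1, n2⟩ := colZ_ne γ
  unfold Pot
  have e1 := H1 _ n1
  have e2 := H2 _ n2
  rw [← cst_cr, ← cr_mulVec, ← Ef_eq] at e2
  rw [col_mul, col_mul]
  exact mul_le_mul e1 e2 h2.le (h1.le.trans e1)

theorem exists_min (G : MR) (hG : G.det ≠ 0) :
    ∃ γ : GZ, 0 < Pot (G * rz (γ : MZ)) ∧
      ∀ γ' : GZ, Pot (G * rz (γ : MZ)) ≤ 11 / 10 * Pot (G * rz (γ' : MZ)) := by
  obtain ⟨κ, hκ, H⟩ := Pot_lower G hG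
  set S : Set ℝ := Set.range (fun γ : GZ => Pot (G * rz (γ : MZ))) with hS
  have hne : S.Nonempty := ⟨_, ⟨1, rfl⟩⟩
  have hbdd : BddBelow S := ⟨κ, by rintro _ ⟨γ, rfl⟩; exact H γ⟩
  have hinf : κ ≤ sInf S := le_csInf hne (by rintro _ ⟨γ, rfl⟩; exact H γ)
  obtain ⟨_, ⟨γ, rfl⟩, hγ⟩ := exists_lt_of_csInf_lt hne
    (show sInf S < 11 / 10 * sInf S by linarith)
  refine ⟨γ, lt_of_lt_of_le hκ (H γ), ?_⟩
  intro γ'
  have := csInf_le hbdd ⟨γ', rfl⟩
  simp only at hγ this
  linarith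

/-- unipotent integer matrix -/
theorem exists_unit (N : MZ) (h : IsUnit N.det) : ∃ γ : GZ, (γ : MZ) = N :=
  (Matrix.isUnit_iff_isUnit_det N).2 h

theorem reduce (G : MR) (hG : G.det ≠ 0) :
    ∃ γ : GZ, dt (col (G * rz (γ : MZ)) 0) (col (G * rz (γ : MZ)) 0) ^ 2
        ≤ 2 * Ef (col (G * rz (γ : MZ)) 0) (col (G * rz (γ : MZ)) 1) ∧
      Ef (col (G * rz (γ : MZ)) 0) (col (G * rz (γ : MZ)) 1) ^ 2
        ≤ 2 * Df (col (G * rz (γ : MZ)) 0) (col (G * rz (γ : MZ)) 1) (col (G * rz (γ : MZ)) 2) ^ 2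
          * dt (col (G * rz (γ : MZ)) 0) (col (G * rz (γ : MZ)) 0) ∧
      |dt (col (G * rz (γ : MZ)) 0) (col (G * rz (γ : MZ)) 1)|
        ≤ dt (col (G * rz (γ : MZ)) 0) (col (G * rz (γ : MZ)) 0) / 2 ∧
      |dt (col (G * rz (γ : MZ)) 0) (col (G * rz (γ : MZ)) 2)|
        ≤ dt (col (G * rz (γ : MZ)) 0) (col (G * rz (γ : MZ)) 0) / 2 ∧
      |Hf (col (G * rz (γ : MZ)) 0) (col (G * rz (γ : MZ)) 1) (col (G * rz (γ : MZ)) 2)|
        ≤ Ef (col (G * rz (γ : MZ)) 0) (col (G * rz (γ : MZ)) 1) / 2 := by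
  obtain ⟨γ, hpos, hmin⟩ := exists_min G hG
  set a := col (G * rz (γ : MZ)) 0 with ha
  set b := col (G * rz (γ : MZ)) 1 with hb
  set d := col (G * rz (γ : MZ)) 2 with hd
  have hA : 0 < dt a a := by
    unfold Pot at hpos
    rw [← ha, ← hb] at hpos
    exact pos_of_mul_pos_left hpos (Ef_nonneg _ _)
  have hE : 0 < Ef a b := by
    unfold Pot at hpos
    rw [← ha, ← hb] at hpos
    exact (pos_iff_pos_of_mul_pos hpos).1 hA
  set r : ℤ := round (dt a b / dt a a) with hr
  set b' : V3 := fun i => b i - r * a i with hb'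
  set m : ℤ := round (Hf a b' d / Ef a b) with hm
  set d' : V3 := fun i => d i - m * b' i with hd'
  set l : ℤ := round (dt a d' / dt a a) with hl
  set d'' : V3 := fun i => d' i - l * a i with hd''
  have hEb' : Ef a b' = Ef a b := by
    simp only [Ef, dt, hb']; ring
  have hab' : |dt a b'| ≤ dt a a / 2 := by
    have e : dt a b' = (dt a b / dt a a - r) * dt a a := by
      rw [sub_mul, div_mul_cancel₀ _ hA.ne']
      simp only [dt, hb']; ring
    rw [e, abs_mul, abs_of_pos hA]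
    have := abs_sub_round (dt a b / dt a a)
    nlinarith
  have hHd' : |Hf a b' d'| ≤ Ef a b / 2 := by
    have e : Hf a b' d' = (Hf a b' d / Ef a b - m) * Ef a b := by
      rw [sub_mul, div_mul_cancel₀ _ hE.ne', ← hEb']
      simp only [Hf, Ef, dt, hd']; ring
    rw [e, abs_mul, abs_of_pos hE]
    have := abs_sub_round (Hf a b' d / Ef a b)
    nlinarith
  have hHd'' : Hf a b' d'' = Hf a b' d' := by
    simp only [Hf, dt, hd'']; ring
  have had'' : |dt a d''| ≤ dt a a / 2 := by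
    have e : dt a d'' = (dt a d' / dt a a - l) * dt a a := by
      rw [sub_mul, div_mul_cancel₀ _ hA.ne']
      simp only [dt, hd'']; ring
    rw [e, abs_mul, abs_of_pos hA]
    have := abs_sub_round (dt a d' / dt a a)
    nlinarith
  obtain ⟨ν, hν⟩ := exists_unit !![1, -r, m * r - l; 0, 1, -m; 0, 0, 1] (by
    rw [Matrix.det_fin_three]; simp)
  obtain ⟨s1, hs1⟩ := exists_unit !![0, 1, 0; 1, 0, 0; 0, 0, 1] (by
    rw [Matrix.det_fin_three]; simp)
  obtain ⟨s2, hs2⟩ := exists_unit !![1, 0, 0; 0, 0, 1; 0, 1, 0] (by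
    rw [Matrix.det_fin_three]; simp)
  set Y := G * rz (γ : MZ) with hY
  have ecol : ∀ (N : MZ) (j : Fin 3), col (Y * rz N) j
      = fun i => a i * (N 0 j : ℝ) + b i * (N 1 j : ℝ) + d i * (N 2 j : ℝ) := by
    intro N j
    funext i
    simp only [col, rz, Matrix.mul_apply, Fin.sum_univ_three, Matrix.map_apply, ha, hb, hd]
  have hmulrz : ∀ δ : GZ, G * rz ((γ * δ : GZ) : MZ) = Y * rz (δ : MZ) := by
    intro δ
    rw [Units.val_mul, rz_mul, hY, Matrix.mul_assoc]
  have c0 : col (G * rz ((γ * ν : GZ) : MZ)) 0 = a := by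
    rw [hmulrz, ecol, hν]
    funext i
    simp
  have c1 : col (G * rz ((γ * ν : GZ) : MZ)) 1 = b' := by
    rw [hmulrz, ecol, hν]
    funext i
    simp only [Matrix.of_apply, Matrix.cons_val', Matrix.cons_val_zero, Matrix.cons_val_one,
      Matrix.cons_val, Matrix.cons_val_fin_one, hb']
    push_cast
    ring
  have c2 : col (G * rz ((γ * ν : GZ) : MZ)) 2 = d'' := by
    rw [hmulrz, ecol, hν]
    funext i
    simp only [Matrix.of_apply, Matrix.cons_val', Matrix.cons_val_zero, Matrix.cons_val_one,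
      Matrix.cons_val, Matrix.cons_val_fin_one, hd'', hd', hb']
    push_cast
    ring
  have ecol2 : ∀ (N : MZ) (j : Fin 3), col (G * rz ((γ * ν : GZ) : MZ) * rz N) j
      = fun i => a i * (N 0 j : ℝ) + b' i * (N 1 j : ℝ) + d'' i * (N 2 j : ℝ) := by
    intro N j
    rw [← c0, ← c1, ← c2]
    funext i
    simp only [col, rz, Matrix.mul_apply, Fin.sum_univ_three, Matrix.map_apply]
  have hmulrz2 : ∀ δ : GZ, G * rz ((γ * ν * δ : GZ) : MZ)
      = G * rz ((γ * ν : GZ) : MZ) * rz (δ : MZ) := by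
    intro δ
    rw [Units.val_mul _ δ, rz_mul, Matrix.mul_assoc]
  have hPot0 : Pot Y = dt a a * Ef a b := rfl
  -- swap 0 1
  have hsw1 : dt a a * Ef a b ≤ 11 / 10 * (dt b' b' * Ef a b) := by
    have h := hmin (γ * ν * s1)
    rw [hPot0] at h
    refine h.trans_eq ?_
    unfold Pot
    rw [hmulrz2, ecol2, ecol2, hs1, ← hEb']
    simp only [Matrix.of_apply, Matrix.cons_val', Matrix.cons_val_zero, Matrix.cons_val_one,
      Matrix.cons_val, Matrix.cons_val_fin_one, Int.cast_zero, Int.cast_one, mul_zero, mul_one,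
      zero_add, add_zero, Ef, dt]
    ring
  have hsw2 : dt a a * Ef a b ≤ 11 / 10 * (dt a a * Ef a d'') := by
    have h := hmin (γ * ν * s2)
    rw [hPot0] at h
    refine h.trans_eq ?_
    unfold Pot
    rw [hmulrz2, ecol2, ecol2, hs2]
    simp only [Matrix.of_apply, Matrix.cons_val', Matrix.cons_val_zero, Matrix.cons_val_one,
      Matrix.cons_val, Matrix.cons_val_fin_one, Int.cast_zero, Int.cast_one, mul_zero, mul_one,
      zero_add, add_zero]
  have h1 : dt a a ≤ 11 / 10 * dt b' b' := by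
    have : dt a a * Ef a b ≤ (11 / 10 * dt b' b') * Ef a b := by linarith
    exact le_of_mul_le_mul_right this hE
  have h2 : Ef a b ≤ 11 / 10 * Ef a d'' := by
    have : dt a a * Ef a b ≤ dt a a * (11 / 10 * Ef a d'') := by linarith
    exact le_of_mul_le_mul_left this hA
  refine ⟨γ * ν, ?_⟩
  rw [c0, c1, c2]
  refine ⟨?_, ?_, hab', had'', ?_⟩
  · have e : dt a a * dt b' b' = Ef a b' + dt a b' ^ 2 := by unfold Ef; ring
    have h3 : dt a b' ^ 2 ≤ (dt a a / 2) ^ 2 :=
      sq_le_sq' (by linarith [(abs_le.1 hab').1]) (abs_le.1 hab').2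
    have h4 : dt a a * dt a a ≤ dt a a * (11 / 10 * dt b' b') :=
      mul_le_mul_of_nonneg_left h1 hA.le
    nlinarith [Ef_nonneg a b']
  · have e := key_id a b' d''
    have h3 : Hf a b' d'' ^ 2 ≤ (Ef a b / 2) ^ 2 := by
      rw [hHd'']
      exact sq_le_sq' (by linarith [(abs_le.1 hHd').1]) (abs_le.1 hHd').2
    rw [hEb'] at e ⊢
    have h4 : Ef a b * Ef a b ≤ Ef a b * (11 / 10 * Ef a d'') :=
      mul_le_mul_of_nonneg_left h2 hE.le
    have h5 : 0 ≤ dt a a * Df a b' d'' ^ 2 := by positivity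
    nlinarith
  · rw [hEb', hHd'']
    exact hHd'

theorem exists_scal (g : GR) : ∃ k : ℤ, 1 ≤ |detR (g * scal k)| ∧ |detR (g * scal k)| < 8 := by
  have hd : detR g ≠ 0 := by
    unfold detR
    exact ((Matrix.isUnit_iff_isUnit_det _).1 g.isUnit).ne_zero
  obtain ⟨n, hn1, hn2⟩ := exists_mem_Ico_zpow (abs_pos.2 hd) (show (1 : ℝ) < 8 by norm_num)
  have h8 : ∀ k : ℤ, detR (g * scal k) = detR g * (8 : ℝ) ^ k := by
    intro k
    unfold detR
    rw [Units.val_mul, Matrix.det_mul]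
    congr 1
    unfold scal
    rw [dg_coe, Matrix.det_diagonal, Fin.prod_univ_three]
    rw [mul_comm (k : ℝ) (Real.log 2), Real.exp_mul, Real.exp_log (by norm_num : (0 : ℝ) < 2),
      Real.rpow_intCast, ← mul_zpow, ← mul_zpow]
    norm_num
  refine ⟨-n, ?_⟩
  have h8n : (0 : ℝ) < 8 ^ n := by positivity
  rw [h8, abs_mul, abs_of_pos (by positivity : (0 : ℝ) < 8 ^ (-n)), zpow_neg]
  constructor
  · rw [le_mul_inv_iff₀ h8n, one_mul]
    exact hn1
  · rw [mul_inv_lt_iff₀ h8n]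
    rw [zpow_add₀ (by norm_num), zpow_one] at hn2
    linarith

theorem cov : KF.T_COV := by
  refine ⟨Dom, Dom_meas, Dom_vol, ?_⟩
  intro g
  obtain ⟨k, hk1, hk2⟩ := exists_scal g
  set G := g * scal k with hG
  have hGd : (G : MR).det ≠ 0 := by
    exact ((Matrix.isUnit_iff_isUnit_det _).1 G.isUnit).ne_zero
  obtain ⟨γ, r1, r2, r3, r4, r5⟩ := reduce (G : MR) hGd
  refine ⟨toR γ * scal k, ⟨γ, k, rfl⟩, ?_⟩
  have e : g * (toR γ * scal k) = G * toR γ := by
    rw [hG, ← mul_assoc, mul_assoc g (toR γ), ← scal_comm, ← mul_assoc]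
  rw [e]
  have hcoe : ((G * toR γ : GR) : MR) = (G : MR) * rz (γ : MZ) := by
    rw [Units.val_mul]
    rfl
  have hdet : |((G * toR γ : GR) : MR).det| = |detR G| := by
    rw [Units.val_mul, Matrix.det_mul, abs_mul]
    have : |((toR γ : GR) : MR).det| = 1 := by
      have h1 : ((toR γ : GR) : MR) = (Int.castRingHom ℝ).mapMatrix (γ : MZ) := rfl
      rw [h1, ← RingHom.map_det]
      have hu : IsUnit (γ : MZ).det := (Matrix.isUnit_iff_isUnit_det _).1 γ.isUnit
      rcases Int.isUnit_iff.1 hu with h | h <;> rw [h] <;> simp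
    rw [this, mul_one]
    rfl
  have hD : Df (col ((G : MR) * rz (γ : MZ)) 0) (col ((G : MR) * rz (γ : MZ)) 1)
      (col ((G : MR) * rz (γ : MZ)) 2) ^ 2 = |detR G| ^ 2 := by
    rw [← det_eq_Df, ← hcoe, ← hdet, sq_abs]
  have hlt : |detR G| ^ 2 < 64 := by
    have := abs_nonneg (detR G)
    nlinarith
  change coleq (ent (G * toR γ)) ∈ Reg
  rw [col_ent, hcoe]
  refine ⟨?_, ?_, r1, ?_, r3, r4, r5⟩
  · change 1 ≤ Df (col ((G : MR) * rz (γ : MZ)) 0) (col ((G : MR) * rz (γ : MZ)) 1)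
      (col ((G : MR) * rz (γ : MZ)) 2) ^ 2
    rw [hD]
    exact one_le_pow₀ hk1
  · change Df (col ((G : MR) * rz (γ : MZ)) 0) (col ((G : MR) * rz (γ : MZ)) 1)
      (col ((G : MR) * rz (γ : MZ)) 2) ^ 2 < 64
    rw [hD]
    exact hlt
  · refine r2.trans ?_
    rw [hD]
    have := dt_self_nonneg (col ((G : MR) * rz (γ : MZ)) 0)
    apply mul_le_mul_of_nonneg_right _ this
    linarith

end KF65
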