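import Mathlib
import Pool.Agent.H22.KF.Targets

/-!
# MP_3fd637_nt, module STAB: stabilisers of lattice polygons
-/

open MeasureTheory Filter Topology
open scoped ENNReal

namespace KF65

open KF

theorem actV_apply (g : GZ) (x : Vec 2) (i : Fin 3) :
    actV (n := 2) g x i = ((g : MZ) i 0 : ℝ) * x 0 + ((g : MZ) i 1 : ℝ) * x 1
      + ((g : MZ) i 2 : ℝ) * x 2 := by
  unfold actV
  simp [Matrix.mulVec, dotProduct, Fin.sum_univ_three]

/-- the integer points of a lattice polygon -/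
def ptsZ (S : Finset (ℤ × ℤ)) : Set VZ := {x | cst x ∈ poly S}

theorem ptsZ_finite (S : Finset (ℤ × ℤ)) : (ptsZ S).Finite := by
  have hc : IsCompact (poly S) := by
    unfold poly
    exact (S.finite_toSet.image _).isCompact_convexHull ℝ
  obtain ⟨R, hR⟩ := hc.isBounded.exists_norm_le
  apply Set.Finite.subset
    (Fintype.piFinset (fun _ : Fin 3 => Finset.Icc (-⌈R⌉) ⌈R⌉)).finite_toSet
  intro x hx
  rw [Finset.mem_coe, Fintype.mem_piFinset]
  intro i
  have h1 := hR _ hx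
  have h2 : |(x i : ℝ)| ≤ R := by
    have := norm_le_pi_norm (cst x) i
    rw [Real.norm_eq_abs] at this
    exact this.trans h1
  rw [Finset.mem_Icc]
  have h3 := abs_le.1 h2
  have h4 : (R : ℝ) ≤ ⌈R⌉ := Int.le_ceil R
  constructor
  · have : ((-⌈R⌉ : ℤ) : ℝ) ≤ (x i : ℝ) := by push_cast; linarith [h3.1]
    exact_mod_cast this
  · have : (x i : ℝ) ≤ ((⌈R⌉ : ℤ) : ℝ) := by linarith [h3.2]
    exact_mod_cast this

theorem mem_poly {S : Finset (ℤ × ℤ)} {a : ℤ × ℤ} (ha : a ∈ S) :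
    (![(a.1 : ℝ), (a.2 : ℝ), 1] : Vec 2) ∈ poly S :=
  subset_convexHull ℝ _ ⟨a, ha, rfl⟩

theorem stab_map {S : Finset (ℤ × ℤ)} {g : GZ} (hg : g ∈ stabF (n := 2) (poly S)) {a : ℤ × ℤ}
    (ha : a ∈ S) : mulZ g ![a.1, a.2, 1] ∈ ptsZ S := by
  have h : actV (n := 2) g ![(a.1 : ℝ), (a.2 : ℝ), 1] ∈ poly S := by
    have := Set.mem_image_of_mem (actV (n := 2) g) (mem_poly ha)
    rwa [show actV (n := 2) g '' poly S = poly S from hg] at this
  have e : cst (mulZ g ![a.1, a.2, 1]) = actV (n := 2) g ![(a.1 : ℝ), (a.2 : ℝ), 1] := by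
    funext i
    rw [actV_apply]
    simp [cst, mulZ, Matrix.mulVec, dotProduct, Fin.sum_univ_three]
  unfold ptsZ
  rw [Set.mem_ofPred_eq, e]
  exact h

theorem stab_finite (S : Finset (ℤ × ℤ)) (hS : Dim2 S) : (stabF (n := 2) (poly S)).Finite := by
  obtain ⟨a, ha, b, hb, c, hc, hdet⟩ := hS
  set N : MZ := !![a.1, b.1, c.1; a.2, b.2, c.2; 1, 1, 1] with hN
  have hdN : N.det ≠ 0 := by
    rw [hN, Matrix.det_fin_three]
    simp only [Matrix.of_apply, Matrix.cons_val', Matrix.cons_val_zero, Matrix.cons_val_one,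
      Matrix.cons_val, Matrix.cons_val_fin_one]
    intro h
    apply hdet
    linarith
  have hfin := ((ptsZ_finite S).prod ((ptsZ_finite S).prod (ptsZ_finite S)))
  refine Set.Finite.of_finite_image (f := fun g : GZ => (mulZ g ![a.1, a.2, 1],
    mulZ g ![b.1, b.2, 1], mulZ g ![c.1, c.2, 1])) (hfin.subset ?_) ?_
  · rintro _ ⟨g, hg, rfl⟩
    exact ⟨stab_map hg ha, stab_map hg hb, stab_map hg hc⟩
  · intro g _ g' _ h
    simp only [Prod.mk.injEq] at h
    obtain ⟨h1, h2, h3⟩ := h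
    have hmul : (g : MZ) * N = (g' : MZ) * N := by
      ext i j
      have e1 := congrFun h1 i
      have e2 := congrFun h2 i
      have e3 := congrFun h3 i
      simp only [mulZ, Matrix.mulVec, dotProduct, Fin.sum_univ_three, Matrix.cons_val_zero,
        Matrix.cons_val_one, Matrix.cons_val] at e1 e2 e3
      rw [Matrix.mul_apply, Matrix.mul_apply, Fin.sum_univ_three, Fin.sum_univ_three]
      fin_cases j
      · simpa [hN] using e1
      · simpa [hN] using e2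
      · simpa [hN] using e3
    have hmul2 : N.det • (g : MZ) = N.det • (g' : MZ) := by
      have := congrArg (fun X => X * N.adjugate) hmul
      simpa only [Matrix.mul_assoc, Matrix.mul_adjugate, Matrix.mul_smul, Matrix.mul_one] using this
    apply Units.ext
    ext i j
    have := congrFun (congrFun hmul2 i) j
    simp only [Matrix.smul_apply, smul_eq_mul] at this
    exact mul_left_cancel₀ hdN this

theorem act_add (g : GZ) (x y : Vec 2) :
    actV (n := 2) g (x + y) = actV (n := 2) g x + actV (n := 2) g y := by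
  unfold actV
  exact Matrix.mulVec_add _ _ _

/-- the action as a linear map -/
noncomputable def actL (g : GZ) : Vec 2 →ₗ[ℝ] Vec 2 :=
  Matrix.mulVecLin ((g : MZ).map (Int.cast : ℤ → ℝ))

theorem actL_apply (g : GZ) (x : Vec 2) : actL g x = actV (n := 2) g x := rfl

theorem act_poly (g : GZ) (S : Finset (ℤ × ℤ)) :
    actV (n := 2) g '' poly S
      = convexHull ℝ ((fun s : ℤ × ℤ => actV (n := 2) g ![(s.1 : ℝ), (s.2 : ℝ), 1]) ''
          (S : Set (ℤ × ℤ))) := by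
  have h := (actL g).image_convexHull ((fun s : ℤ × ℤ => (![(s.1 : ℝ), (s.2 : ℝ), 1] : Vec 2)) ''
    (S : Set (ℤ × ℤ)))
  rw [Set.image_image] at h
  exact h

theorem poly1_sub : poly S1 ⊆ {p | p 2 = 1 ∧ 0 ≤ p 0 ∧ 0 ≤ p 1 ∧ p 0 + p 1 ≤ 2} := by
  unfold poly
  apply convexHull_min
  · rintro _ ⟨s, hs, rfl⟩
    simp only [S1, Finset.coe_insert, Finset.coe_singleton, Set.mem_insert_iff,
      Set.mem_singleton_iff] at hs
    rcases hs with rfl | rfl | rfl <;> simp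
  · intro x hx y hy s t hs ht hst
    simp only [Set.mem_ofPred_eq] at hx hy ⊢
    obtain ⟨a1, a2, a3, a4⟩ := hx
    obtain ⟨b1, b2, b3, b4⟩ := hy
    simp only [Pi.add_apply, Pi.smul_apply, smul_eq_mul]
    refine ⟨?_, by positivity, by positivity, ?_⟩
    · rw [a1, b1]; linarith
    · nlinarith

theorem poly2_sub : poly S2 ⊆ {p | p 2 = 1 ∧ 0 ≤ p 0 ∧ 0 ≤ p 1 ∧ 3 * p 0 + 2 * p 1 ≤ 6} := by
  unfold poly
  apply convexHull_min
  · rintro _ ⟨s, hs, rfl⟩
    simp only [S2, Finset.coe_insert, Finset.coe_singleton, Set.mem_insert_iff,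
      Set.mem_singleton_iff] at hs
    rcases hs with rfl | rfl | rfl
    · refine ⟨by simp, by simp, by simp, by norm_num⟩
    · refine ⟨by simp, by simp, by simp, by norm_num⟩
    · refine ⟨by simp, by simp, by simp, by norm_num⟩
  · intro x hx y hy s t hs ht hst
    simp only [Set.mem_ofPred_eq] at hx hy ⊢
    obtain ⟨a1, a2, a3, a4⟩ := hx
    obtain ⟨b1, b2, b3, b4⟩ := hy
    simp only [Pi.add_apply, Pi.smul_apply, smul_eq_mul]
    refine ⟨?_, by positivity, by positivity, ?_⟩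
    · rw [a1, b1]; linarith
    · nlinarith

/-- the six matrices of the stabiliser of the first triangle -/
def six : Finset MZ :=
  {!![1, 0, 0; 0, 1, 0; 0, 0, 1], !![0, 1, 0; 1, 0, 0; 0, 0, 1],
   !![-1, -1, 2; 0, 1, 0; 0, 0, 1], !![-1, -1, 2; 1, 0, 0; 0, 0, 1],
   !![1, 0, 0; -1, -1, 2; 0, 0, 1], !![0, 1, 0; -1, -1, 2; 0, 0, 1]}

theorem six_card : six.card = 6 := by decide +kernel

theorem enum1 : ∀ A1 ∈ Finset.Icc (0 : ℤ) 2, ∀ A2 ∈ Finset.Icc (0 : ℤ) 2,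
    ∀ p ∈ Finset.Icc (-1 : ℤ) 1 ×ˢ Finset.Icc (-1 : ℤ) 1 ×ˢ Finset.Icc (-1 : ℤ) 1 ×ˢ
      Finset.Icc (-1 : ℤ) 1,
    (A1 + A2 ≤ 2 ∧ 0 ≤ A1 + 2 * p.1 ∧ 0 ≤ A2 + 2 * p.2.1 ∧
      A1 + 2 * p.1 + (A2 + 2 * p.2.1) ≤ 2 ∧
    0 ≤ A1 + 2 * p.2.2.1 ∧ 0 ≤ A2 + 2 * p.2.2.2 ∧ A1 + 2 * p.2.2.1 + (A2 + 2 * p.2.2.2) ≤ 2 ∧
    (p.1 * p.2.2.2 - p.2.1 * p.2.2.1 = 1 ∨ p.1 * p.2.2.2 - p.2.1 * p.2.2.1 = -1)) →
    (!![p.1, p.2.2.1, A1; p.2.1, p.2.2.2, A2; 0, 0, 1] : MZ) ∈ six := by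
  decide +kernel

theorem enum2 : ∀ A1 ∈ Finset.Icc (0 : ℤ) 2, ∀ A2 ∈ Finset.Icc (0 : ℤ) 3,
    ∀ p ∈ Finset.Icc (-1 : ℤ) 1 ×ˢ Finset.Icc (-1 : ℤ) 1 ×ˢ Finset.Icc (0 : ℤ) 0 ×ˢ
      Finset.Icc (-1 : ℤ) 1,
    (3 * A1 + 2 * A2 ≤ 6 ∧ 0 ≤ A1 + 2 * p.1 ∧ 0 ≤ A2 + 2 * p.2.1 ∧
      3 * (A1 + 2 * p.1) + 2 * (A2 + 2 * p.2.1) ≤ 6 ∧
    0 ≤ A1 + 3 * p.2.2.1 ∧ 0 ≤ A2 + 3 * p.2.2.2 ∧
    3 * (A1 + 3 * p.2.2.1) + 2 * (A2 + 3 * p.2.2.2) ≤ 6 ∧
    (p.1 * p.2.2.2 - p.2.1 * p.2.2.1 = 1 ∨ p.1 * p.2.2.2 - p.2.1 * p.2.2.1 = -1)) →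
    (!![p.1, p.2.2.1, A1; p.2.1, p.2.2.2, A2; 0, 0, 1] : MZ) = 1 := by
  decide +kernel

/-- the last row is `(0, 0, 1)` and the determinant -/
theorem shape (M : MZ) (a b : ℤ) (ha : a ≠ 0) (hb : b ≠ 0) (hu : IsUnit M.det)
    (h0 : M 2 2 = 1) (h1 : M 2 0 * a + M 2 2 = 1) (h2 : M 2 1 * b + M 2 2 = 1) :
    M = !![M 0 0, M 0 1, M 0 2; M 1 0, M 1 1, M 1 2; 0, 0, 1] ∧
    (M 0 0 * M 1 1 - M 1 0 * M 0 1 = 1 ∨ M 0 0 * M 1 1 - M 1 0 * M 0 1 = -1) := by
  have h3 : M 2 0 = 0 := by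
    rw [h0] at h1
    have : M 2 0 * a = 0 := by linarith
    exact (mul_eq_zero.1 this).resolve_right ha
  have h4 : M 2 1 = 0 := by
    rw [h0] at h2
    have : M 2 1 * b = 0 := by linarith
    exact (mul_eq_zero.1 this).resolve_right hb
  refine ⟨?_, ?_⟩
  · ext i j
    fin_cases i <;> fin_cases j <;> simp [h0, h3, h4]
  · rw [Matrix.det_fin_three, h0, h3, h4] at hu
    have := Int.isUnit_iff.1 hu
    rcases this with h | h
    · left; linarith
    · right; linarith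

theorem pts_val {S : Finset (ℤ × ℤ)} {g : GZ} (hg : g ∈ stabF (n := 2) (poly S)) {a : ℤ × ℤ}
    (ha : a ∈ S) : (fun i => (((g : MZ) i 0 * a.1 + (g : MZ) i 1 * a.2 + (g : MZ) i 2 : ℤ) : ℝ) :
      Vec 2) ∈ poly S := by
  have h := stab_map hg ha
  unfold ptsZ at h
  rw [Set.mem_ofPred_eq] at h
  have e : cst (mulZ g ![a.1, a.2, 1])
      = (fun i => (((g : MZ) i 0 * a.1 + (g : MZ) i 1 * a.2 + (g : MZ) i 2 : ℤ) : ℝ)) := by
    funext i
    simp [cst, mulZ, Matrix.mulVec, dotProduct, Fin.sum_univ_three]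
  rwa [e] at h

theorem stab1_sub {g : GZ} (hg : g ∈ stabF (n := 2) (poly S1)) : (g : MZ) ∈ six := by
  have hA := poly1_sub (pts_val hg (a := (0, 0)) (by simp [S1]))
  have hB := poly1_sub (pts_val hg (a := (2, 0)) (by simp [S1]))
  have hC := poly1_sub (pts_val hg (a := (0, 2)) (by simp [S1]))
  simp only [Set.mem_ofPred_eq] at hA hB hC
  obtain ⟨a1, a2, a3, a4⟩ := hA
  obtain ⟨b1, b2, b3, b4⟩ := hB
  obtain ⟨c1, c2, c3, c4⟩ := hC
  norm_cast at a1 a2 a3 a4 b1 b2 b3 b4 c1 c2 c3 c4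
  obtain ⟨hs, hd⟩ := shape (g : MZ) 2 2 (by norm_num) (by norm_num)
    ((Matrix.isUnit_iff_isUnit_det _).1 g.isUnit) (by linarith) (by linarith) (by linarith)
  rw [hs]
  refine enum1 _ ?_ _ ?_ (((g : MZ) 0 0), ((g : MZ) 1 0), ((g : MZ) 0 1), ((g : MZ) 1 1)) ?_
    ⟨?_, ?_, ?_, ?_, ?_, ?_, ?_, hd⟩
  · rw [Finset.mem_Icc]; omega
  · rw [Finset.mem_Icc]; omega
  · simp only [Finset.mem_product, Finset.mem_Icc]; omega
  all_goals first | omega | (dsimp only; omega)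

theorem stab2_sub {g : GZ} (hg : g ∈ stabF (n := 2) (poly S2)) : (g : MZ) = 1 := by
  have hA := poly2_sub (pts_val hg (a := (0, 0)) (by simp [S2]))
  have hB := poly2_sub (pts_val hg (a := (2, 0)) (by simp [S2]))
  have hC := poly2_sub (pts_val hg (a := (0, 3)) (by simp [S2]))
  simp only [Set.mem_ofPred_eq] at hA hB hC
  obtain ⟨a1, a2, a3, a4⟩ := hA
  obtain ⟨b1, b2, b3, b4⟩ := hB
  obtain ⟨c1, c2, c3, c4⟩ := hC
  norm_cast at a1 a2 a3 a4 b1 b2 b3 b4 c1 c2 c3 c4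
  obtain ⟨hs, hd⟩ := shape (g : MZ) 2 3 (by norm_num) (by norm_num)
    ((Matrix.isUnit_iff_isUnit_det _).1 g.isUnit) (by linarith) (by linarith) (by linarith)
  rw [hs]
  refine enum2 _ ?_ _ ?_ (((g : MZ) 0 0), ((g : MZ) 1 0), ((g : MZ) 0 1), ((g : MZ) 1 1)) ?_
    ⟨?_, ?_, ?_, ?_, ?_, ?_, ?_, hd⟩
  · rw [Finset.mem_Icc]; omega
  · rw [Finset.mem_Icc]; omega
  · simp only [Finset.mem_product, Finset.mem_Icc]; omega
  all_goals first | omega | (dsimp only; omega)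

theorem six_det : ∀ M ∈ six, M.det = 1 ∨ M.det = -1 := by
  intro M hM
  simp only [six, Finset.mem_insert, Finset.mem_singleton] at hM
  rcases hM with rfl | rfl | rfl | rfl | rfl | rfl <;>
    · rw [Matrix.det_fin_three]; simp

theorem six_perm : ∀ M ∈ six,
    ({M.mulVec ![0, 0, 1], M.mulVec ![2, 0, 1], M.mulVec ![0, 2, 1]} : Finset VZ)
      = {![0, 0, 1], ![2, 0, 1], ![0, 2, 1]} := by
  decide +kernel

theorem stab1_sup {g : GZ} (hg : (g : MZ) ∈ six) : g ∈ stabF (n := 2) (poly S1) := by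
  have h := six_perm _ hg
  change actV (n := 2) g '' poly S1 = poly S1
  rw [act_poly]
  unfold poly
  congr 1
  have e : ∀ s : ℤ × ℤ, actV (n := 2) g ![(s.1 : ℝ), (s.2 : ℝ), 1]
      = cst ((g : MZ).mulVec ![s.1, s.2, 1]) := by
    intro s
    funext i
    rw [actV_apply]
    simp [cst, Matrix.mulVec, dotProduct, Fin.sum_univ_three]
  have e2 : ∀ s : ℤ × ℤ, (![(s.1 : ℝ), (s.2 : ℝ), 1] : Vec 2) = cst ![s.1, s.2, 1] := by
    intro s
    funext i
    fin_cases i <;> simp [cst]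
  simp only [e]
  simp only [e2]
  have h2 := congrArg (fun X : Finset VZ => cst '' (X : Set VZ)) h
  simp only [Finset.coe_insert, Finset.coe_singleton, Set.image_insert_eq,
    Set.image_singleton] at h2
  simp only [S1, Finset.coe_insert, Finset.coe_singleton, Set.image_insert_eq,
    Set.image_singleton]
  exact h2

theorem stab1_card : (stabF (n := 2) (poly S1)).ncard = 6 := by
  have himg : (fun g : GZ => (g : MZ)) '' (stabF (n := 2) (poly S1)) = (six : Set MZ) := by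
    ext M
    constructor
    · rintro ⟨g, hg, rfl⟩
      exact stab1_sub hg
    · intro hM
      have hu : IsUnit M.det := by
        rcases six_det M hM with h | h <;> rw [h]
        · exact isUnit_one
        · exact isUnit_one.neg
      obtain ⟨g, hg⟩ := (Matrix.isUnit_iff_isUnit_det M).2 hu
      refine ⟨g, stab1_sup ?_, hg⟩
      rw [hg]; exact hM
  have hinj : Set.InjOn (fun g : GZ => (g : MZ)) (stabF (n := 2) (poly S1)) :=
    fun g _ g' _ h => Units.ext h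
  rw [← hinj.ncard_image, himg, Set.ncard_coe_finset, six_card]

theorem stab2_card : (stabF (n := 2) (poly S2)).ncard = 1 := by
  have : stabF (n := 2) (poly S2) = {1} := by
    ext g
    rw [Set.mem_singleton_iff]
    constructor
    · intro hg
      exact Units.ext (stab2_sub hg)
    · rintro rfl
      change actV (n := 2) 1 '' poly S2 = poly S2
      have : actV (n := 2) (1 : GZ) = id := by
        funext x
        funext i
        rw [actV_apply]
        fin_cases i <;> simp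
      rw [this, Set.image_id]
  rw [this, Set.ncard_singleton]

theorem stab : KF.T_STAB := ⟨stab_finite, stab1_card, stab2_card⟩

end KF65
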